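import Pool.Agent.W586.SK.Stm2
import Pool.Agent.H888R2.KT.N10

/-!
Part SEQ of project SX: from symmetric functions and functions odd under a transposition to all
functions.
-/

set_option autoImplicit false
set_option maxHeartbeats 4000000

namespace Pool.Agent.W62.SX.Seq

open MeasureTheory Set
open scoped ENNReal InnerProductSpace
open Pool.Agent.H212R2.KLS (mu Bdd)
open Pool.Agent.H888R2.KT (LC)
open Pool.Agent.W586.SK (E)
open Pool.Agent.W586.SX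

variable {n : ℕ} {ρ : E n → ℝ}

theorem finm (hρ : LC ρ) : IsFiniteMeasure (mu ρ) := ⟨lt_top_iff_ne_top.mpr hρ.fin⟩

theorem ae_ne (hρ : LC ρ) : ∀ᵐ x ∂(mu ρ), ρ x ≠ 0 := by
  unfold mu
  rw [ae_withDensity_iff (hρ.meas.ennreal_ofReal)]
  refine Filter.Eventually.of_forall fun x hx h => hx ?_
  rw [h, ENNReal.ofReal_zero]

theorem int_cont (hρ : LC ρ) {g : E n → ℝ} (hg : Continuous g) :
    Integrable g (mu ρ) := by
  have := finm hρ
  obtain ⟨R, hR⟩ := hρ.bdd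
  obtain ⟨C, hC⟩ := (isCompact_closedBall (0 : E n) R).exists_bound_of_continuousOn
    hg.continuousOn
  refine Integrable.of_bound hg.aestronglyMeasurable C ?_
  filter_upwards [ae_ne hρ] with x hx
  refine hC x ?_
  rw [mem_closedBall_zero_iff]
  by_contra h
  exact hx (hR x (not_le.mp h))

/-- permutation of the coordinates -/
noncomputable def A (σ : Equiv.Perm (Fin n)) : E n ≃ₗᵢ[ℝ] E n :=
  LinearIsometryEquiv.piLpCongrLeft 2 ℝ ℝ σ.symm

theorem A_apply (σ : Equiv.Perm (Fin n)) (x : E n) (j : Fin n) : A σ x j = x (σ j) := by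
  unfold A
  rw [LinearIsometryEquiv.piLpCongrLeft_apply]
  rfl

theorem A_mul (σ τ : Equiv.Perm (Fin n)) (x : E n) : A σ (A τ x) = A (τ * σ) x := by
  ext j
  rw [A_apply, A_apply, A_apply]
  rfl

theorem sw_eq (k l : Fin n) (x : E n) : sw k l x = A (Equiv.swap k l) x := by
  ext j
  rw [sw_apply, A_apply]

theorem int_A (hS : Sx ρ) (σ : Equiv.Perm (Fin n)) (f : E n → ℝ) :
    ∫ x, f (A σ x) ∂(mu ρ) = ∫ x, f x ∂(mu ρ) :=
  Pool.Agent.H888R2.KT.N10x.int_comp hS.meas (A σ)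
    (fun x => hS.inv σ x (A σ x) (fun i => A_apply σ x i)) f

theorem real_id {ι : Type} (S : Finset ι) (hS : (S.card : ℝ) ≠ 0) (a : ι → ℝ) (c : ℝ) :
    ∑ j ∈ S, (a j - c) ^ 2 = S.card * (1 / S.card * ∑ j ∈ S, a j - c) ^ 2 +
      1 / (2 * S.card) * ∑ i ∈ S, ∑ j ∈ S, (a i - a j) ^ 2 := by
  set T := ∑ j ∈ S, a j with hT
  set Q := ∑ j ∈ S, a j ^ 2 with hQ
  have h1 : ∑ j ∈ S, (a j - c) ^ 2 = Q - 2 * c * T + S.card * c ^ 2 := by
    have : ∀ j ∈ S, (a j - c) ^ 2 = a j ^ 2 - 2 * c * a j + c ^ 2 := fun j _ => by ring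
    rw [Finset.sum_congr rfl this, Finset.sum_add_distrib, Finset.sum_sub_distrib,
      ← Finset.mul_sum, Finset.sum_const, nsmul_eq_mul]
  have h2 : ∑ i ∈ S, ∑ j ∈ S, (a i - a j) ^ 2 = 2 * S.card * Q - 2 * T ^ 2 := by
    have h3 : ∀ i ∈ S, ∑ j ∈ S, (a i - a j) ^ 2 = S.card * a i ^ 2 - 2 * T * a i + Q := by
      intro i _
      have : ∀ j ∈ S, (a i - a j) ^ 2 = a i ^ 2 - 2 * a i * a j + a j ^ 2 := fun j _ => by ring
      rw [Finset.sum_congr rfl this, Finset.sum_add_distrib, Finset.sum_sub_distrib,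
        ← Finset.mul_sum, Finset.sum_const, nsmul_eq_mul]
      ring
    rw [Finset.sum_congr rfl h3, Finset.sum_add_distrib, Finset.sum_sub_distrib,
      ← Finset.mul_sum, ← Finset.mul_sum, Finset.sum_const, nsmul_eq_mul]
    ring
  rw [h1, h2]
  field_simp
  ring

/-- the norm of a functional through its coordinates -/
theorem nrm_sq (φ : E n →L[ℝ] ℝ) :
    ‖φ‖ ^ 2 = ∑ i, (φ (EuclideanSpace.single i 1)) ^ 2 := by
  set v : E n := (InnerProductSpace.toDual ℝ (E n)).symm φ with hv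
  have h1 : ‖φ‖ = ‖v‖ := by rw [hv, LinearIsometryEquiv.norm_map]
  have h2 : ∀ i, φ (EuclideanSpace.single i 1) = v i := by
    intro i
    have h3 : φ (EuclideanSpace.single i 1) = ⟪v, EuclideanSpace.single i 1⟫_ℝ := by
      rw [hv, InnerProductSpace.toDual_symm_apply]
    rw [h3, EuclideanSpace.inner_single_right]
    simp
  rw [h1, EuclideanSpace.norm_sq_eq]
  refine Finset.sum_congr rfl fun i _ => ?_
  rw [h2, Real.norm_eq_abs, sq_abs]

theorem fd_id {ι : Type} (S : Finset ι) (hS : (S.card : ℝ) ≠ 0) (φ : ι → (E n →L[ℝ] ℝ)) :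
    ∑ j ∈ S, ‖φ j‖ ^ 2 = S.card * ‖(1 / (S.card : ℝ)) • ∑ j ∈ S, φ j‖ ^ 2 +
      1 / (2 * S.card) * ∑ i ∈ S, ∑ j ∈ S, ‖φ i - φ j‖ ^ 2 := by
  simp only [nrm_sq]
  rw [Finset.sum_comm]
  have h0 : ∀ i : Fin n, ∑ j ∈ S, (φ j (EuclideanSpace.single i 1)) ^ 2 =
      S.card * (1 / S.card * ∑ j ∈ S, φ j (EuclideanSpace.single i 1)) ^ 2 +
      1 / (2 * S.card) * ∑ k ∈ S, ∑ j ∈ S, (φ k (EuclideanSpace.single i 1) -
        φ j (EuclideanSpace.single i 1)) ^ 2 := by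
    intro i
    have := real_id S hS (fun j => φ j (EuclideanSpace.single i 1)) 0
    simpa using this
  rw [Finset.sum_congr rfl (fun i _ => h0 i), Finset.sum_add_distrib, ← Finset.mul_sum,
    ← Finset.mul_sum]
  congr 1
  · congr 1
    refine Finset.sum_congr rfl fun i _ => ?_
    congr 1
    simp
  · congr 1
    rw [Finset.sum_comm]
    refine Finset.sum_congr rfl fun k _ => ?_
    rw [Finset.sum_comm]
    rfl

/-- invariance under the permutations fixing the coordinates `≥ m` -/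
def Inv (m : ℕ) (f : E n → ℝ) : Prop :=
  ∀ σ : Equiv.Perm (Fin n), (∀ j : Fin n, m ≤ j.val → σ j = j) → ∀ x, f (A σ x) = f x

/-- the coordinates `≤ m` -/
def SS (n m : ℕ) : Finset (Fin n) := Finset.univ.filter fun j => j.val ≤ m

theorem mem_SS {m : ℕ} (j : Fin n) : j ∈ SS n m ↔ j.val ≤ m := by
  unfold SS
  rw [Finset.mem_filter]
  exact ⟨fun h => h.2, fun h => ⟨Finset.mem_univ _, h⟩⟩

theorem map_SS {m : ℕ} (σ : Equiv.Perm (Fin n)) (hσ : ∀ j : Fin n, m + 1 ≤ j.val → σ j = j)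
    (j : Fin n) : j ∈ SS n m ↔ σ j ∈ SS n m := by
  rw [mem_SS, mem_SS]
  constructor
  · intro h
    by_contra h1
    have h2 : σ (σ j) = σ j := hσ _ (by omega)
    have h3 : σ j = j := σ.injective h2
    rw [h3] at h1
    exact h1 h
  · intro h
    by_contra h1
    have h2 : σ j = j := hσ _ (by omega)
    rw [h2] at h
    exact h1 h

theorem claim {m : ℕ} (hm : m < n) (f : E n → ℝ) (hf : Inv m f) (σ : Equiv.Perm (Fin n))
    (hσ : ∀ j : Fin n, m + 1 ≤ j.val → σ j = j) (j : Fin n) (hj : j ∈ SS n m) (x : E n) :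
    f (A (Equiv.swap j ⟨m, hm⟩) (A σ x)) = f (A (Equiv.swap (σ j) ⟨m, hm⟩) x) := by
  set p : Fin n := ⟨m, hm⟩ with hp
  have hσj : σ j ∈ SS n m := (map_SS σ hσ j).1 hj
  rw [mem_SS] at hj hσj
  rw [A_mul]
  set h : Equiv.Perm (Fin n) := Equiv.swap (σ j) p * (σ * Equiv.swap j p) with hh
  have e1 : σ * Equiv.swap j p = Equiv.swap (σ j) p * h := by
    rw [hh, ← mul_assoc (Equiv.swap (σ j) p), Equiv.swap_mul_self, one_mul]
  rw [e1, ← A_mul]
  apply hf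
  intro i hi
  rw [hh]
  show Equiv.swap (σ j) p (σ (Equiv.swap j p i)) = i
  by_cases hip : i = p
  · rw [hip, Equiv.swap_apply_right, Equiv.swap_apply_left]
  · have hne : i.val ≠ m := by
      intro h0
      exact hip (Fin.ext h0)
    have h1 : m + 1 ≤ i.val := by omega
    have h2 : i ≠ j := by
      rintro rfl
      omega
    have h3 : i ≠ σ j := by
      intro h4
      rw [← h4] at hσj
      omega
    rw [Equiv.swap_apply_of_ne_of_ne h2 hip, hσ i h1, Equiv.swap_apply_of_ne_of_ne h3 hip]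

theorem norm_fd (σ : Equiv.Perm (Fin n)) (f : E n → ℝ) (hf : ContDiff ℝ 1 f) (x : E n) :
    ‖fderiv ℝ (fun y => f (A σ y)) x‖ = ‖fderiv ℝ f (A σ x)‖ := by
  have h1 : fderiv ℝ (fun y => f (A σ y)) x =
      (fderiv ℝ f (A σ x)).comp ((A σ).toContinuousLinearEquiv : E n →L[ℝ] E n) := by
    have h2 : DifferentiableAt ℝ f (A σ x) := (hf.differentiable one_ne_zero).differentiableAt
    have h3 : HasFDerivAt (fun y => A σ y)
        ((A σ).toContinuousLinearEquiv : E n →L[ℝ] E n) x :=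
      (A σ).toContinuousLinearEquiv.hasFDerivAt
    exact (h2.hasFDerivAt.comp x h3).fderiv
  rw [h1]
  exact ContinuousLinearMap.opNorm_comp_linearIsometryEquiv _ (A σ)

theorem step (hS : Sx ρ) (hLC : LC ρ) (L : ℝ) (hL : 0 < L)
    (hodd : ∀ (k l : Fin n) (f : E n → ℝ), k ≠ l → ContDiff ℝ 1 f →
      (∀ x, f (sw k l x) = - f x) →
      ∫ x, f x ^ 2 ∂(mu ρ) ≤ L * ∫ x, ‖fderiv ℝ f x‖ ^ 2 ∂(mu ρ))
    (m : ℕ) (hm : m < n)
    (hP : ∀ f : E n → ℝ, ContDiff ℝ 1 f → Inv (m + 1) f →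
      ∃ c : ℝ, ∫ x, (f x - c) ^ 2 ∂(mu ρ) ≤ L * ∫ x, ‖fderiv ℝ f x‖ ^ 2 ∂(mu ρ))
    (f : E n → ℝ) (hf : ContDiff ℝ 1 f) (hinv : Inv m f) :
    ∃ c : ℝ, ∫ x, (f x - c) ^ 2 ∂(mu ρ) ≤ L * ∫ x, ‖fderiv ℝ f x‖ ^ 2 ∂(mu ρ) := by
  set p : Fin n := ⟨m, hm⟩ with hp
  set S := SS n m with hSdef
  have hpS : p ∈ S := by rw [hSdef, mem_SS]
  have hNpos : (0 : ℝ) < S.card := by
    have : 0 < S.card := Finset.card_pos.2 ⟨p, hpS⟩
    exact_mod_cast this
  have hN0 : (S.card : ℝ) ≠ 0 := hNpos.ne'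
  let g : Fin n → E n → ℝ := fun j x => f (A (Equiv.swap j p) x)
  have hg : ∀ j, ContDiff ℝ 1 (g j) := fun j => hf.comp (A (Equiv.swap j p)).contDiff
  have hcl : ∀ (σ : Equiv.Perm (Fin n)), (∀ j : Fin n, m + 1 ≤ j.val → σ j = j) →
      ∀ j ∈ S, ∀ x, g j (A σ x) = g (σ j) x := fun σ hσ j hj x => claim hm f hinv σ hσ j hj x
  let gb : E n → ℝ := fun x => 1 / (S.card : ℝ) * ∑ j ∈ S, g j x
  have hgb : ContDiff ℝ 1 gb := contDiff_const.mul (ContDiff.sum fun j _ => hg j)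
  have hgbinv : Inv (m + 1) gb := by
    intro σ hσ x
    simp only [gb]
    congr 1
    refine Finset.sum_equiv σ (fun i => map_SS σ hσ i) ?_
    intro i hi
    exact hcl σ hσ i hi x
  obtain ⟨c, hc⟩ := hP gb hgb hgbinv
  refine ⟨c, ?_⟩
  -- continuity facts
  have hgc : ∀ j, Continuous (g j) := fun j => (hg j).continuous
  have hfd : ∀ j, Continuous (fun x => fderiv ℝ (g j) x) := fun j =>
    (hg j).continuous_fderiv one_ne_zero
  -- derivatives
  have hdgb : ∀ x, fderiv ℝ gb x = (1 / (S.card : ℝ)) • ∑ j ∈ S, fderiv ℝ (g j) x := by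
    intro x
    have h1 : ∀ j ∈ S, DifferentiableAt ℝ (g j) x := fun j _ =>
      ((hg j).differentiable one_ne_zero).differentiableAt
    have h2 : HasFDerivAt (fun y => ∑ j ∈ S, g j y) (∑ j ∈ S, fderiv ℝ (g j) x) x :=
      HasFDerivAt.fun_sum fun j hj => (h1 j hj).hasFDerivAt
    exact (h2.const_mul (1 / (S.card : ℝ))).fderiv
  have hdsub : ∀ i j x, fderiv ℝ (fun y => g i y - g j y) x =
      fderiv ℝ (g i) x - fderiv ℝ (g j) x := by
    intro i j x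
    exact ((((hg i).differentiable one_ne_zero).differentiableAt (x := x)).hasFDerivAt.sub
      ((((hg j).differentiable one_ne_zero).differentiableAt (x := x)).hasFDerivAt)).fderiv
  -- the odd parts
  have hoddij : ∀ i ∈ S, ∀ j ∈ S, ∫ x, (g i x - g j x) ^ 2 ∂(mu ρ) ≤
      L * ∫ x, ‖fderiv ℝ (g i) x - fderiv ℝ (g j) x‖ ^ 2 ∂(mu ρ) := by
    intro i hi j hj
    by_cases hij : i = j
    · subst hij
      simp
    · have h1 := hodd i j (fun y => g i y - g j y) hij ((hg i).sub (hg j)) (by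
        intro x
        have hσ : ∀ k : Fin n, m + 1 ≤ k.val → Equiv.swap i j k = k := by
          intro k hk
          rw [hSdef, mem_SS] at hi hj
          apply Equiv.swap_apply_of_ne_of_ne
          · rintro rfl; omega
          · rintro rfl; omega
        have e1 : g i (sw i j x) = g j x := by
          rw [sw_eq, hcl _ hσ i hi x, Equiv.swap_apply_left]
        have e2 : g j (sw i j x) = g i x := by
          rw [sw_eq, hcl _ hσ j hj x, Equiv.swap_apply_right]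
        rw [e1, e2]
        ring)
      simpa only [hdsub] using h1
  -- integrals
  have I1 : ∀ j, ∫ x, (g j x - c) ^ 2 ∂(mu ρ) = ∫ x, (f x - c) ^ 2 ∂(mu ρ) := fun j =>
    int_A hS (Equiv.swap j p) (fun x => (f x - c) ^ 2)
  have I2 : ∀ j, ∫ x, ‖fderiv ℝ (g j) x‖ ^ 2 ∂(mu ρ) = ∫ x, ‖fderiv ℝ f x‖ ^ 2 ∂(mu ρ) := by
    intro j
    rw [← int_A hS (Equiv.swap j p) (fun x => ‖fderiv ℝ f x‖ ^ 2)]
    refine integral_congr_ae (Filter.Eventually.of_forall fun x => ?_)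
    show ‖fderiv ℝ (g j) x‖ ^ 2 = ‖fderiv ℝ f (A (Equiv.swap j p) x)‖ ^ 2
    rw [norm_fd (Equiv.swap j p) f hf x]
  have iA : ∀ j, Integrable (fun x => (g j x - c) ^ 2) (mu ρ) := fun j =>
    int_cont hLC (((hgc j).sub continuous_const).pow 2)
  have iB : Integrable (fun x => (gb x - c) ^ 2) (mu ρ) :=
    int_cont hLC ((hgb.continuous.sub continuous_const).pow 2)
  have iC : ∀ i j, Integrable (fun x => (g i x - g j x) ^ 2) (mu ρ) := fun i j =>
    int_cont hLC (((hgc i).sub (hgc j)).pow 2)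
  have iD : ∀ j, Integrable (fun x => ‖fderiv ℝ (g j) x‖ ^ 2) (mu ρ) := fun j =>
    int_cont hLC ((hfd j).norm.pow 2)
  have iE : Integrable (fun x => ‖fderiv ℝ gb x‖ ^ 2) (mu ρ) :=
    int_cont hLC ((hgb.continuous_fderiv one_ne_zero).norm.pow 2)
  have iF : ∀ i j, Integrable (fun x => ‖fderiv ℝ (g i) x - fderiv ℝ (g j) x‖ ^ 2) (mu ρ) :=
    fun i j => int_cont hLC (((hfd i).sub (hfd j)).norm.pow 2)
  have E1 : (S.card : ℝ) * ∫ x, (f x - c) ^ 2 ∂(mu ρ) =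
      S.card * ∫ x, (gb x - c) ^ 2 ∂(mu ρ) +
      1 / (2 * S.card) * ∑ i ∈ S, ∑ j ∈ S, ∫ x, (g i x - g j x) ^ 2 ∂(mu ρ) := by
    have h1 : ∫ x, (∑ j ∈ S, (g j x - c) ^ 2) ∂(mu ρ) =
        ∑ j ∈ S, ∫ x, (g j x - c) ^ 2 ∂(mu ρ) := integral_finsetSum S fun j _ => iA j
    have h2 : ∑ j ∈ S, ∫ x, (g j x - c) ^ 2 ∂(mu ρ) =
        (S.card : ℝ) * ∫ x, (f x - c) ^ 2 ∂(mu ρ) := by
      rw [Finset.sum_congr rfl (fun j _ => I1 j), Finset.sum_const, nsmul_eq_mul]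
    have h3 : (fun x => ∑ j ∈ S, (g j x - c) ^ 2) = fun x => (S.card : ℝ) * (gb x - c) ^ 2 +
        1 / (2 * S.card) * ∑ i ∈ S, ∑ j ∈ S, (g i x - g j x) ^ 2 := by
      funext x
      exact real_id S hN0 (fun j => g j x) c
    have h4 : Integrable (fun x => ∑ i ∈ S, ∑ j ∈ S, (g i x - g j x) ^ 2) (mu ρ) :=
      integrable_finsetSum _ fun i _ => integrable_finsetSum _ fun j _ => iC i j
    rw [← h2, ← h1, h3, integral_add (iB.const_mul _) (h4.const_mul _), integral_const_mul,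
      integral_const_mul, integral_finsetSum S fun i _ => integrable_finsetSum _ fun j _ => iC i j]
    congr 2
    refine Finset.sum_congr rfl fun i _ => ?_
    exact integral_finsetSum S fun j _ => iC i j
  have E2 : (S.card : ℝ) * ∫ x, ‖fderiv ℝ f x‖ ^ 2 ∂(mu ρ) =
      S.card * ∫ x, ‖fderiv ℝ gb x‖ ^ 2 ∂(mu ρ) +
      1 / (2 * S.card) * ∑ i ∈ S, ∑ j ∈ S,
        ∫ x, ‖fderiv ℝ (g i) x - fderiv ℝ (g j) x‖ ^ 2 ∂(mu ρ) := by
    have h1 : ∫ x, (∑ j ∈ S, ‖fderiv ℝ (g j) x‖ ^ 2) ∂(mu ρ) =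
        ∑ j ∈ S, ∫ x, ‖fderiv ℝ (g j) x‖ ^ 2 ∂(mu ρ) := integral_finsetSum S fun j _ => iD j
    have h2 : ∑ j ∈ S, ∫ x, ‖fderiv ℝ (g j) x‖ ^ 2 ∂(mu ρ) =
        (S.card : ℝ) * ∫ x, ‖fderiv ℝ f x‖ ^ 2 ∂(mu ρ) := by
      rw [Finset.sum_congr rfl (fun j _ => I2 j), Finset.sum_const, nsmul_eq_mul]
    have h3 : (fun x => ∑ j ∈ S, ‖fderiv ℝ (g j) x‖ ^ 2) = fun x =>
        (S.card : ℝ) * ‖fderiv ℝ gb x‖ ^ 2 +
        1 / (2 * S.card) * ∑ i ∈ S, ∑ j ∈ S, ‖fderiv ℝ (g i) x - fderiv ℝ (g j) x‖ ^ 2 := by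
      funext x
      rw [hdgb x]
      exact fd_id S hN0 (fun j => fderiv ℝ (g j) x)
    have h4 : Integrable (fun x => ∑ i ∈ S, ∑ j ∈ S,
        ‖fderiv ℝ (g i) x - fderiv ℝ (g j) x‖ ^ 2) (mu ρ) :=
      integrable_finsetSum _ fun i _ => integrable_finsetSum _ fun j _ => iF i j
    rw [← h2, ← h1, h3, integral_add (iE.const_mul _) (h4.const_mul _), integral_const_mul,
      integral_const_mul, integral_finsetSum S fun i _ => integrable_finsetSum _ fun j _ => iF i j]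
    congr 2
    refine Finset.sum_congr rfl fun i _ => ?_
    exact integral_finsetSum S fun j _ => iF i j
  have hsum : ∑ i ∈ S, ∑ j ∈ S, ∫ x, (g i x - g j x) ^ 2 ∂(mu ρ) ≤
      L * ∑ i ∈ S, ∑ j ∈ S, ∫ x, ‖fderiv ℝ (g i) x - fderiv ℝ (g j) x‖ ^ 2 ∂(mu ρ) := by
    rw [Finset.mul_sum]
    refine Finset.sum_le_sum fun i hi => ?_
    rw [Finset.mul_sum]
    exact Finset.sum_le_sum fun j hj => hoddij i hi j hj
  have hk : 0 ≤ 1 / (2 * (S.card : ℝ)) := by positivity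
  have h5 := mul_le_mul_of_nonneg_left hsum hk
  have h6 := mul_le_mul_of_nonneg_left hc hNpos.le
  have h7 : (S.card : ℝ) * ∫ x, (f x - c) ^ 2 ∂(mu ρ) ≤
      (S.card : ℝ) * (L * ∫ x, ‖fderiv ℝ f x‖ ^ 2 ∂(mu ρ)) := by
    have h8 : (S.card : ℝ) * (L * ∫ x, ‖fderiv ℝ f x‖ ^ 2 ∂(mu ρ)) =
        L * ((S.card : ℝ) * ∫ x, ‖fderiv ℝ f x‖ ^ 2 ∂(mu ρ)) := by ring
    rw [h8, E1, E2]
    nlinarith [h5, h6]
  exact le_of_mul_le_mul_left h7 hNpos

theorem seq : S_SEQ := by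
  intro n ρ hS hLC L hL hodd hsym f hf
  have key : ∀ k : ℕ, k ≤ n → ∀ f : E n → ℝ, ContDiff ℝ 1 f → Inv (n - k) f →
      ∃ c : ℝ, ∫ x, (f x - c) ^ 2 ∂(mu ρ) ≤ L * ∫ x, ‖fderiv ℝ f x‖ ^ 2 ∂(mu ρ) := by
    intro k
    induction k with
    | zero =>
      intro _ f hf hinv
      refine hsym f hf ?_
      intro a b x
      rw [sw_eq]
      apply hinv
      intro j hj
      have := j.isLt
      omega
    | succ k ih =>
      intro hk f hf hinv
      have e : n - k = (n - (k + 1)) + 1 := by omega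
      refine step hS hLC L hL hodd (n - (k + 1)) (by omega) ?_ f hf hinv
      intro f' hf' hinv'
      exact ih (by omega) f' hf' (by rw [e]; exact hinv')
  refine key n le_rfl f hf ?_
  intro σ hσ x
  have : σ = 1 := by
    ext j
    rw [hσ j (by omega)]
    rfl
  rw [this]
  congr 1

end Pool.Agent.W62.SX.Seq
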